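import Pool.Agent.Helper26.Er.Defs

/-!
# Linear regression of stationary waves: derivatives of functions with the mean value property
(packages E2c and E2d of helper26)
-/

set_option autoImplicit false
set_option linter.unusedSectionVars false
open MeasureTheory Filter Topology ProbabilityTheory
open scoped ContDiff ENNReal InnerProductSpace

namespace Pool.Agent.Helper1.Er

open Pool.Agent.N661.BR (MW J0)
open Pool.Agent.Helper37.BC hiding kap
open Pool.Agent.Helper26.Ip

noncomputable section

/-- a directional derivative of a function with the mean value property has it too -/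
theorem mean_deriv {u : ℂ → ℝ} (hu : ContDiff ℝ ∞ u) (hm : MeanValue u) (e : ℂ) :
    MeanValue (fun z => fderiv ℝ u z e) := by
  intro z r hr
  have hd : ∀ x : ℂ, HasFDerivAt u (fderiv ℝ u x) x := fun x =>
    (hu.differentiable (by simp)).differentiableAt.hasFDerivAt
  have hc : Continuous (fun x => fderiv ℝ u x e) :=
    (hu.continuous_fderiv (by simp)).clm_apply continuous_const
  have hline : ∀ (a : ℂ) (t : ℝ), HasDerivAt (fun t : ℝ => a + (t : ℂ) * e) e t := by
    intro a t
    have h := ((Complex.ofRealCLM.hasDerivAt (x := t)).mul_const e).const_add a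
    simpa using h
  have hder : ∀ (a : ℂ) (t : ℝ),
      HasDerivAt (fun t : ℝ => u (a + (t : ℂ) * e)) (fderiv ℝ u (a + (t : ℂ) * e) e) t := by
    intro a t
    exact (hd (a + (t : ℂ) * e)).comp_hasDerivAt t (hline a t)
  have hcont : Continuous fun p : ℝ × ℝ => fderiv ℝ u ((z + r * ee p.2) + (p.1 : ℂ) * e) e := by
    refine hc.comp ?_
    have := ee_cont
    fun_prop
  obtain ⟨K, hK⟩ := ((isCompact_Icc (a := (-1:ℝ)) (b := 1)).prod
    (isCompact_Icc (a := (0:ℝ)) (b := 2 * Real.pi))).exists_bound_of_continuousOn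
    hcont.continuousOn
  have hcF : ∀ t : ℝ, Continuous fun θ : ℝ => u ((z + r * ee θ) + (t : ℂ) * e) := by
    intro t
    have := ee_cont
    have := hu.continuous
    fun_prop
  have h2 : 0 ≤ 2 * Real.pi := by positivity
  have h1 := (intervalIntegral.hasDerivAt_integral_of_dominated_loc_of_deriv_le (μ := volume)
    (a := 0) (b := 2 * Real.pi)
    (F := fun (t θ : ℝ) => u ((z + r * ee θ) + (t : ℂ) * e))
    (F' := fun (t θ : ℝ) => fderiv ℝ u ((z + r * ee θ) + (t : ℂ) * e) e) (x₀ := (0:ℝ))
    (s := Set.Icc (-1) 1) (bound := fun _ => K)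
    (Icc_mem_nhds (by norm_num) (by norm_num))
    (Eventually.of_forall fun t => (hcF t).aestronglyMeasurable)
    ((hcF 0).intervalIntegrable _ _)
    (hcont.comp (Continuous.prodMk_right (0:ℝ))).aestronglyMeasurable
    (Eventually.of_forall fun θ hθ t ht => by
      rw [Set.uIoc_of_le h2] at hθ
      exact hK (t, θ) ⟨ht, ⟨hθ.1.le, hθ.2⟩⟩)
    intervalIntegrable_const
    (Eventually.of_forall fun θ _ t _ => hder _ t)).2
  have h3 : (fun t : ℝ => ∫ θ in (0:ℝ)..(2 * Real.pi), u ((z + r * ee θ) + (t : ℂ) * e)) =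
      fun t : ℝ => 2 * Real.pi * J0 r * u (z + (t : ℂ) * e) := by
    funext t
    rw [← hm (z + (t : ℂ) * e) r hr]
    refine intervalIntegral.integral_congr fun θ _ => ?_
    show u (z + r * ee θ + (t : ℂ) * e) = u (z + (t : ℂ) * e + r * ee θ)
    congr 1
    ring
  rw [h3] at h1
  have h4 := (hder z 0).const_mul (2 * Real.pi * J0 r)
  have h5 := h1.unique h4
  simpa using h5

/-- **the gradient of a bounded function with the mean value property** -/
theorem fderiv_bound : ∃ C : ℝ, 0 ≤ C ∧ ∀ (u : ℂ → ℝ), ContDiff ℝ ∞ u → MeanValue u →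
    ∀ M : ℝ, (∀ z, |u z| ≤ M) → ∀ z, ‖fderiv ℝ u z‖ ≤ C * M := by
  have hk := kap_pos
  refine ⟨kap⁻¹ * volume.real (Metric.ball (0:ℂ) 2),
    mul_nonneg (inv_pos.2 hk).le measureReal_nonneg, fun u hu hm M hM z => ?_⟩
  have hM0 : 0 ≤ M := (abs_nonneg _).trans (hM 0)
  have hc : Continuous fun y => u (z + y) := by
    have := hu.continuous
    fun_prop
  have hm' : MeanValue fun y => u (z + y) := by
    intro y r hr
    have := hm (z + y) r hr
    rw [← this]
    refine intervalIntegral.integral_congr fun θ _ => ?_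
    show u (z + (y + r * ee θ)) = u (z + y + r * ee θ)
    rw [add_assoc]
  have hint : ∫ y in Metric.ball (0:ℂ) 2, |u (z + y)| ≤
      volume.real (Metric.ball (0:ℂ) 2) * M := by
    have h5 : ∫ y in Metric.ball (0:ℂ) 2, |u (z + y)| ≤ ∫ y in Metric.ball (0:ℂ) 2, M :=
      setIntegral_mono (cont_ball hc.abs 2) (integrableOn_const (ball_fin 2)) fun y => hM _
    rwa [setIntegral_const, smul_eq_mul] at h5
  refine norm_fderiv_le_of_lip' ℝ (by positivity) ?_
  filter_upwards [Metric.closedBall_mem_nhds z one_pos] with x hx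
  rw [Metric.mem_closedBall, dist_eq_norm] at hx
  have h6 := loc_lip hc hm' hx
  simp only [add_sub_cancel, add_zero] at h6
  rw [Real.norm_eq_abs]
  refine h6.trans ?_
  calc kap⁻¹ * ‖x - z‖ * ∫ y in Metric.ball (0:ℂ) 2, |u (z + y)|
      ≤ kap⁻¹ * ‖x - z‖ * (volume.real (Metric.ball (0:ℂ) 2) * M) := by gcongr
    _ = kap⁻¹ * volume.real (Metric.ball (0:ℂ) 2) * M * ‖x - z‖ := by ring

end

end Pool.Agent.Helper1.Er
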