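import Pool.Agent.Helper88.Ip.Inv

/-!
# Linear regression of stationary waves: the space of the values is infinite-dimensional
(package E9e of helper26)
-/

set_option autoImplicit false
set_option linter.unusedSectionVars false
open MeasureTheory Filter Topology ProbabilityTheory
open scoped ContDiff ENNReal InnerProductSpace

namespace Pool.Agent.Helper1.Er

open Pool.Agent.N661.BR (MW J0 IsStationary shift meas_eval meas_shift IsGaussianLaw lin meas_lin)
open Pool.Agent.Helper37.BC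
open Pool.Agent.Helper26.Ip
open Complex (I)

noncomputable section

variable {μ : Measure MW} [IsProbabilityMeasure μ]

/-- the values at distant points are almost orthogonal -/
theorem not_le_fin (hs : IsStationary μ) (h2 : Integrable (fun f : MW => f 0 ^ 2) μ)
    (hcov : ∀ w w' : ℂ, ∫ f : MW, f w * f w' ∂μ = J0 ‖w - w'‖)
    (U : Submodule ℝ (Lp ℝ 2 μ)) [FiniteDimensional ℝ U] : ¬ values μ ≤ U := by
  intro hU
  obtain ⟨R, hR⟩ := (Metric.tendsto_atTop.1 Pool.Agent.Helper88.Ip.J0_tendsto) (1 / 2)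
    (by norm_num)
  obtain ⟨R', hR'⟩ : ∃ R', R' = max R 1 := ⟨_, rfl⟩
  have hR1 : 1 ≤ R' := by rw [hR']; exact le_max_right _ _
  have hRR : R ≤ R' := by rw [hR']; exact le_max_left _ _
  have hip : ∀ x y : ℂ, ⟪V hs h2 x, V hs h2 y⟫_ℝ = J0 ‖x - y‖ := fun x y => by
    rw [Pool.Agent.Helper88.Ip.inner_V, hcov]
  have hn : ∀ x : ℂ, ‖V hs h2 x‖ ^ 2 = 1 := fun x => by
    rw [← real_inner_self_eq_norm_sq, hip, sub_self, norm_zero, J0_zero]
  obtain ⟨v, hv⟩ : ∃ v : ℕ → U, ∀ m, (v m : Lp ℝ 2 μ) = V hs h2 ((m * R' : ℝ) : ℂ) :=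
    ⟨fun m => ⟨_, hU (V_mem hs h2 ((m * R' : ℝ) : ℂ))⟩, fun m => rfl⟩
  have hbd : ∀ m, v m ∈ Metric.closedBall (0 : U) 1 := by
    intro m
    rw [mem_closedBall_zero_iff, Submodule.coe_norm, hv]
    have h1 := hn ((m * R' : ℝ) : ℂ)
    nlinarith [norm_nonneg (V hs h2 ((m * R' : ℝ) : ℂ))]
  have : ProperSpace U := FiniteDimensional.proper ℝ U
  obtain ⟨a, -, φ, hφ, hlim⟩ := tendsto_subseq_of_bounded Metric.isBounded_closedBall hbd
  have hC := hlim.cauchySeq
  obtain ⟨N, hN⟩ := Metric.cauchySeq_iff'.1 hC 1 one_pos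
  have h1 := hN (N + 1) (Nat.le_succ N)
  have h3 : φ N < φ (N + 1) := hφ (Nat.lt_succ_self N)
  have h4 : dist (v (φ (N + 1))) (v (φ N)) ^ 2 =
      2 - 2 * J0 ‖((φ (N + 1) * R' : ℝ) : ℂ) - ((φ N * R' : ℝ) : ℂ)‖ := by
    rw [dist_eq_norm, Submodule.coe_norm, Submodule.coe_sub, hv, hv, @norm_sub_sq_real, hn, hn, hip]
    ring
  have h5 : R ≤ ‖((φ (N + 1) * R' : ℝ) : ℂ) - ((φ N * R' : ℝ) : ℂ)‖ := by
    rw [← Complex.ofReal_sub, Complex.norm_real, ← sub_mul, Real.norm_eq_abs]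
    have h6 : (1 : ℝ) ≤ φ (N + 1) - φ N := by
      have h7 : ((φ N + 1 : ℕ) : ℝ) ≤ φ (N + 1) := by exact_mod_cast h3
      push_cast at h7
      linarith
    refine hRR.trans ?_
    refine le_trans ?_ (le_abs_self _)
    nlinarith
  have h6 := hR _ h5
  rw [Real.dist_eq, sub_zero] at h6
  have h7 := (abs_lt.1 h6).2
  have h8 : dist (v (φ (N + 1))) (v (φ N)) < 1 := h1
  have h9 : (0 : ℝ) ≤ dist (v (φ (N + 1))) (v (φ N)) := dist_nonneg
  nlinarith

/-- E9e -/
theorem inf_dim (hs : IsStationary μ) (h2 : Integrable (fun f : MW => f 0 ^ 2) μ)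
    (hcov : ∀ w w' : ℂ, ∫ f : MW, f w * f w' ∂μ = J0 ‖w - w'‖) (n : ℕ) {c : Lp ℝ 2 μ}
    (hc : c ∈ values μ) :
    ∃ e : Fin n → Lp ℝ 2 μ, (∀ i, e i ∈ values μ) ∧ Orthonormal ℝ e ∧ ∀ i, ⟪c, e i⟫_ℝ = 0 := by
  induction n with
  | zero =>
    exact ⟨Fin.elim0, fun i => i.elim0, ⟨fun i => i.elim0, fun i => i.elim0⟩, fun i => i.elim0⟩
  | succ n ih =>
    obtain ⟨e, he, ho, hce⟩ := ih
    obtain ⟨U, hUdef⟩ : ∃ U : Submodule ℝ (Lp ℝ 2 μ), U = Submodule.span ℝ ({c} ∪ Set.range e) :=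
      ⟨_, rfl⟩
    have hfin : FiniteDimensional ℝ U := by
      rw [hUdef]
      exact FiniteDimensional.span_of_finite ℝ ((Set.finite_singleton c).union (Set.finite_range e))
    have hcU : c ∈ U := by
      rw [hUdef]
      exact Submodule.subset_span (Or.inl rfl)
    have heU : ∀ i, e i ∈ U := fun i => by
      rw [hUdef]
      exact Submodule.subset_span (Or.inr ⟨i, rfl⟩)
    have hUv : U ≤ values μ := by
      rw [hUdef, Submodule.span_le]
      rintro x (hx | ⟨i, rfl⟩)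
      · rw [Set.mem_singleton_iff] at hx
        rw [hx]
        exact hc
      · exact he i
    obtain ⟨x, hx, hxU⟩ : ∃ x ∈ values μ, x ∉ U := by
      by_contra hcon
      push Not at hcon
      exact not_le_fin hs h2 hcov U hcon
    have hcomp : CompleteSpace U := FiniteDimensional.complete ℝ U
    obtain ⟨y, hyU, z, hz, hxyz⟩ := U.exists_add_mem_mem_orthogonal x
    have hzne : z ≠ 0 := by
      rintro rfl
      rw [add_zero] at hxyz
      exact hxU (hxyz ▸ hyU)
    have hzv : z ∈ values μ := by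
      have h1 : z = x - y := by rw [hxyz]; abel
      rw [h1]
      exact (values μ).sub_mem hx (hUv hyU)
    have hzn : ‖z‖ ≠ 0 := norm_ne_zero_iff.2 hzne
    refine ⟨Fin.cons ((‖z‖)⁻¹ • z) e, fun i => ?_, ?_, fun i => ?_⟩
    · refine Fin.cases ?_ (fun j => ?_) i
      · exact (values μ).smul_mem _ hzv
      · exact he j
    · refine ⟨fun i => ?_, fun i j hij => ?_⟩
      · refine Fin.cases ?_ (fun j => ?_) i
        · rw [Fin.cons_zero, norm_smul, norm_inv, norm_norm, inv_mul_cancel₀ hzn]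
        · rw [Fin.cons_succ]
          exact ho.1 j
      · revert hij
        refine Fin.cases ?_ (fun i' => ?_) i
        · refine Fin.cases ?_ (fun j' => ?_) j
          · intro h
            exact absurd rfl h
          · intro _
            show ⟪(Fin.cons ((‖z‖)⁻¹ • z) e : Fin (n + 1) → Lp ℝ 2 μ) 0,
              (Fin.cons ((‖z‖)⁻¹ • z) e : Fin (n + 1) → Lp ℝ 2 μ) j'.succ⟫_ℝ = 0
            rw [Fin.cons_zero, Fin.cons_succ, real_inner_smul_left,
              Submodule.inner_left_of_mem_orthogonal (heU j') hz, mul_zero]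
        · refine Fin.cases ?_ (fun j' => ?_) j
          · intro _
            show ⟪(Fin.cons ((‖z‖)⁻¹ • z) e : Fin (n + 1) → Lp ℝ 2 μ) i'.succ,
              (Fin.cons ((‖z‖)⁻¹ • z) e : Fin (n + 1) → Lp ℝ 2 μ) 0⟫_ℝ = 0
            rw [Fin.cons_zero, Fin.cons_succ, real_inner_smul_right,
              Submodule.inner_right_of_mem_orthogonal (heU i') hz, mul_zero]
          · intro h
            show ⟪(Fin.cons ((‖z‖)⁻¹ • z) e : Fin (n + 1) → Lp ℝ 2 μ) i'.succ,
              (Fin.cons ((‖z‖)⁻¹ • z) e : Fin (n + 1) → Lp ℝ 2 μ) j'.succ⟫_ℝ = 0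
            rw [Fin.cons_succ, Fin.cons_succ]
            exact ho.2 (fun h' => h (by rw [h']))
    · refine Fin.cases ?_ (fun j => ?_) i
      · rw [Fin.cons_zero, real_inner_smul_right, Submodule.inner_right_of_mem_orthogonal hcU hz,
          mul_zero]
      · rw [Fin.cons_succ]
        exact hce j

end

end Pool.Agent.Helper1.Er
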